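import Mathlib

set_option autoImplicit false

/-! Antipalindromic numbers in base 3: digit strings. -/

namespace Q251.AP

/-- `GA n P`: `P` is the value of a base-3 digit string of length `n` (leading zeros allowed)
whose `i`-th digit from the right and `i`-th digit from the left always add up to `2`. -/
inductive GA : ℕ → ℕ → Prop
  | nil : GA 0 0
  | one : GA 1 1
  | step {n P a : ℕ} : GA n P → a ≤ 2 → GA (n + 2) (a + 3 * P + (2 - a) * 3 ^ (n + 1))

/-- `n` is antipalindromic in base 3: it is positive, and for its base-3 expansion
`u_0, ..., u_k` (least significant digit first, `u_k ≠ 0`) one has `u_i + u_(k-i) = 2` for all `i ≤ k`. -/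
def Antipal (n : ℕ) : Prop :=
  0 < n ∧ ∀ i < (Nat.digits 3 n).length,
    (Nat.digits 3 n).getD i 0 + (Nat.digits 3 n).getD ((Nat.digits 3 n).length - 1 - i) 0 = 2

/-- `N` is a sum of one, two or three antipalindromic numbers. -/
def Rep (N : ℕ) : Prop :=
  Antipal N ∨ (∃ a b, Antipal a ∧ Antipal b ∧ a + b = N) ∨
    ∃ a b c, Antipal a ∧ Antipal b ∧ Antipal c ∧ a + b + c = N

/-- symmetric digit lists -/
def SymL (ds : List ℕ) : Prop := ∀ i < ds.length, ds.getD i 0 + ds.getD (ds.length - 1 - i) 0 = 2

theorem getD_wrap (a b : ℕ) (ds : List ℕ) (i : ℕ) :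
    (a :: (ds ++ [b])).getD i 0 = if i = 0 then a else if i ≤ ds.length then ds.getD (i - 1) 0
      else if i = ds.length + 1 then b else 0 := by
  rcases i with _ | i
  · simp
  · rw [List.getD_cons_succ]
    rcases lt_trichotomy i ds.length with h | h | h
    · rw [List.getD_append _ _ _ _ h]
      simp [show i + 1 ≤ ds.length by omega]
    · subst h
      rw [List.getD_append_right _ _ _ _ (le_refl _)]
      simp
    · rw [List.getD_append_right _ _ _ _ (le_of_lt h)]
      have : ∃ k, i - ds.length = k + 1 := ⟨i - ds.length - 1, by omega⟩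
      obtain ⟨k, hk⟩ := this
      rw [hk]
      simp [show ¬ (i + 1 ≤ ds.length) by omega, show ¬ (i = ds.length) by omega]

theorem symL_wrap (a b : ℕ) (ds : List ℕ) :
    SymL (a :: (ds ++ [b])) ↔ a + b = 2 ∧ SymL ds := by
  have hl : (a :: (ds ++ [b])).length = ds.length + 2 := by simp
  constructor
  · intro h
    unfold SymL at h
    rw [hl] at h
    constructor
    · have := h 0 (by omega)
      rw [getD_wrap, getD_wrap] at this
      simpa using this
    · intro i hi
      have := h (i + 1) (by omega)
      rw [getD_wrap, getD_wrap] at this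
      rw [if_neg (by omega), if_pos (by omega), if_neg (by omega), if_pos (by omega)] at this
      have e : ds.length + 2 - 1 - (i + 1) - 1 = ds.length - 1 - i := by omega
      rw [e] at this
      simpa using this
  · rintro ⟨h1, h2⟩ i hi
    rw [hl] at hi ⊢
    rw [getD_wrap, getD_wrap]
    by_cases h0 : i = 0
    · subst h0
      simpa using h1
    · rw [if_neg h0]
      by_cases h3 : i ≤ ds.length
      · rw [if_pos h3, if_neg (by omega), if_pos (by omega)]
        have := h2 (i - 1) (by omega)
        have e : ds.length + 2 - 1 - i - 1 = ds.length - 1 - (i - 1) := by omega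
        rw [e]
        exact this
      · have h4 : i = ds.length + 1 := by omega
        subst h4
        simp
        omega

theorem GA.digits {n P : ℕ} (h : GA n P) :
    ∃ ds : List ℕ, ds.length = n ∧ (∀ d ∈ ds, d < 3) ∧ Nat.ofDigits 3 ds = P ∧ SymL ds := by
  induction h with
  | nil => exact ⟨[], rfl, by simp, rfl, by intro i hi; simp at hi⟩
  | one =>
    refine ⟨[1], rfl, by simp, by simp, ?_⟩
    intro i hi
    simp at hi
    subst hi
    simp
  | @step n P a h ha ih =>
    obtain ⟨ds, h1, h2, h3, h4⟩ := ih
    refine ⟨a :: (ds ++ [2 - a]), by simp [h1], ?_, ?_, ?_⟩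
    · intro d hd
      simp only [List.mem_cons, List.mem_append, List.not_mem_nil, or_false] at hd
      rcases hd with rfl | hd | rfl
      · omega
      · exact h2 d hd
      · omega
    · rw [Nat.ofDigits_cons, Nat.ofDigits_append, h3, h1, Nat.ofDigits_singleton]
      rw [pow_succ]
      ring
    · rw [symL_wrap]
      exact ⟨by omega, h4⟩

/-- wrapping with a nonzero leading digit gives antipalindromic numbers -/
theorem antipal_step {n P a : ℕ} (h : GA n P) (ha : a ≤ 1) :
    Antipal (a + 3 * P + (2 - a) * 3 ^ (n + 1)) := by
  obtain ⟨ds, h1, h2, h3, h4⟩ := h.digits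
  have e : Nat.ofDigits 3 (a :: (ds ++ [2 - a])) = a + 3 * P + (2 - a) * 3 ^ (n + 1) := by
    rw [Nat.ofDigits_cons, Nat.ofDigits_append, h3, h1, Nat.ofDigits_singleton]
    rw [pow_succ]
    ring
  have hd : Nat.digits 3 (a + 3 * P + (2 - a) * 3 ^ (n + 1)) = a :: (ds ++ [2 - a]) := by
    rw [← e]
    apply Nat.digits_ofDigits 3 (by norm_num)
    · intro d hd
      simp only [List.mem_cons, List.mem_append, List.not_mem_nil, or_false] at hd
      rcases hd with rfl | hd | rfl
      · omega
      · exact h2 d hd
      · omega
    · intro hne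
      have : (a :: (ds ++ [2 - a])).getLast hne = 2 - a := by
        rw [List.getLast_cons (by simp)]
        simp
      rw [this]
      omega
  refine ⟨?_, ?_⟩
  · have : 0 < (2 - a) * 3 ^ (n + 1) := Nat.mul_pos (by omega) (by positivity)
    omega
  · rw [hd]
    exact (symL_wrap _ _ _).2 ⟨by omega, h4⟩

theorem antipal_one : Antipal 1 := by
  refine ⟨by norm_num, ?_⟩
  intro i hi
  have e : Nat.digits 3 1 = [1] := by norm_num
  rw [e] at hi ⊢
  simp at hi
  subst hi
  simp

theorem GA.parity {n P : ℕ} (h : GA n P) : P % 2 = n % 2 := by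
  induction h with
  | nil => rfl
  | one => rfl
  | @step n P a h ha ih =>
    have h3 : 3 ^ (n + 1) % 2 = 1 := by
      rw [Nat.pow_mod]
      simp
    have h5 : ((2 - a) * 3 ^ (n + 1)) % 2 = (2 - a) % 2 := by
      rw [Nat.mul_mod, h3]
      simp
    omega

/-- symmetric digit lists give `GA` -/
theorem symL_GA : ∀ (m : ℕ) (ds : List ℕ), ds.length = m → SymL ds → GA m (Nat.ofDigits 3 ds) := by
  intro m
  induction m using Nat.strong_induction_on with
  | _ m ih =>
    intro ds hl hs
    rcases m with _ | _ | m
    · rw [List.length_eq_zero_iff] at hl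
      subst hl
      exact GA.nil
    · rw [List.length_eq_one_iff] at hl
      obtain ⟨a, rfl⟩ := hl
      have := hs 0 (by simp)
      simp at this
      have ha : a = 1 := by omega
      subst ha
      simpa using GA.one
    · rcases ds with _ | ⟨a, ds⟩
      · simp at hl
      · have hne : ds ≠ [] := by
          rintro rfl
          simp at hl
        have e := List.dropLast_append_getLast hne
        set ds' := ds.dropLast with hds'
        set b := ds.getLast hne with hb
        rw [← e] at hs hl ⊢
        rw [symL_wrap] at hs
        have hl' : ds'.length = m := by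
          simp at hl
          exact hl
        have h5 := ih m (by omega) ds' hl' hs.2
        have e2 : Nat.ofDigits 3 (a :: (ds' ++ [b])) = a + 3 * Nat.ofDigits 3 ds' + (2 - a) * 3 ^ (m + 1) := by
          rw [Nat.ofDigits_cons, Nat.ofDigits_append, hl', Nat.ofDigits_singleton]
          have : b = 2 - a := by omega
          rw [this, pow_succ]
          ring
        rw [e2]
        exact GA.step h5 (by omega)

theorem Antipal.GA {n : ℕ} (h : Antipal n) : GA (Nat.digits 3 n).length n := by
  have := symL_GA _ (Nat.digits 3 n) rfl h.2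
  rwa [Nat.ofDigits_digits] at this

/-- the list of all values of symmetric strings -/
def gaList : ℕ → List ℕ
  | 0 => [0]
  | 1 => [1]
  | n + 2 => (gaList n).flatMap fun P => [3 * P + 2 * 3 ^ (n + 1), 1 + 3 * P + 3 ^ (n + 1), 2 + 3 * P]

theorem GA_of_mem : ∀ (n P : ℕ), P ∈ gaList n → GA n P := by
  intro n
  induction n using Nat.strong_induction_on with
  | _ n ih =>
    intro P hP
    rcases n with _ | _ | n
    · simp [gaList] at hP
      subst hP
      exact GA.nil
    · simp [gaList] at hP
      subst hP
      exact GA.one
    · rw [gaList, List.mem_flatMap] at hP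
      obtain ⟨Q, hQ, hP⟩ := hP
      have h := ih n (by omega) Q hQ
      simp only [List.mem_cons, List.not_mem_nil, or_false] at hP
      rcases hP with rfl | rfl | rfl
      · have := GA.step (a := 0) h (by norm_num)
        simpa using this
      · have := GA.step (a := 1) h (by norm_num)
        simpa using this
      · have := GA.step (a := 2) h (by norm_num)
        simpa using this

theorem mem_of_GA {n P : ℕ} (h : GA n P) : P ∈ gaList n := by
  induction h with
  | nil => simp [gaList]
  | one => simp [gaList]
  | @step n P a h ha ih =>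
    rw [gaList, List.mem_flatMap]
    refine ⟨P, ih, ?_⟩
    have : a = 0 ∨ a = 1 ∨ a = 2 := by omega
    rcases this with rfl | rfl | rfl <;> simp

end Q251.AP
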