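import Mathlib
import Pool.Agent.Q251.AP.Basic

set_option autoImplicit false

/-! Two-sided automaton for sums of three antipalindromic strings, and its kernel-checkable
certificates. -/

namespace Q251.AP

/-- numerical data of a system: common depth `M`, offset `W`, final block length `mu`, and the types
`(r1, r2, r3)`: three strings whose lengths are `n - M + r1`, `n - M + r2`, `n - M + r3`. -/
structure Sys where
  M : ℕ
  W : ℕ
  mu : ℕ
  ts : List (ℕ × ℕ × ℕ)

/-- list access by recursion -/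
def nth {α : Type} (d : α) : List α → ℕ → α :=
  fun l => List.rec (motive := fun _ => ℕ → α) (fun _ => d)
    (fun a _ ih j => Nat.rec (motive := fun _ => α) a (fun k _ => ih k) j) l

theorem nth_nil {α : Type} (d : α) (j : ℕ) : nth d [] j = d := rfl
theorem nth_zero {α : Type} (d a : α) (l : List α) : nth d (a :: l) 0 = a := rfl
theorem nth_succ {α : Type} (d a : α) (l : List α) (j : ℕ) : nth d (a :: l) (j + 1) = nth d l j := rfl

theorem nth_map {α β : Type} (d : α) (e : β) (f : α → β) (hf : f d = e) :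
    ∀ (l : List α) (j : ℕ), nth e (l.map f) j = f (nth d l j) := by
  intro l
  induction l with
  | nil => intro j; simp [nth_nil, hf]
  | cons a l ih =>
    intro j
    rcases j with _ | j
    · simp [nth_zero]
    · rw [List.map_cons, nth_succ, nth_succ, ih]

/-- the type with index `j` -/
def Sys.rr (S : Sys) (j : ℕ) : ℕ × ℕ × ℕ := nth (0, 0, 0) S.ts j

/-- acceptance of a block `B` of `n` digits from the state `(l, v)` of type `j` -/
def Acc (S : Sys) (j l v n B : ℕ) : Prop :=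
  ∃ P1 P2 P3, GA (n - S.M + (S.rr j).1) P1 ∧ GA (n - S.M + (S.rr j).2.1) P2 ∧
    GA (n - S.M + (S.rr j).2.2) P3 ∧
    B + 3 ^ (n - S.M) * S.W = l + (P1 + P2 + P3) + 3 ^ (n - S.M) * v

/-- weight of the top digits -/
def tw (r : ℕ × ℕ × ℕ) (a b c : ℕ) : ℕ := (2 - a) * 3 ^ r.1 + (2 - b) * 3 ^ r.2.1 + (2 - c) * 3 ^ r.2.2

theorem Acc.step {S : Sys} {j l v l' v' n B x y a b c : ℕ} (hn : S.M ≤ n)
    (h : Acc S j l' v' n B) (ha : a ≤ 2) (hb : b ≤ 2) (hc : c ≤ 2)
    (hk : l + a + b + c = x + 3 * l')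
    (hv : 3 * v + tw (S.rr j) a b c = v' + 2 * S.W + y * 3 ^ S.M) :
    Acc S j l v (n + 2) (x + 3 * B + y * 3 ^ (n + 1)) := by
  obtain ⟨P1, P2, P3, h1, h2, h3, h4⟩ := h
  set m := n - S.M with hm
  have hm2 : n + 2 - S.M = m + 2 := by omega
  have hn1 : n + 1 = m + 1 + S.M := by omega
  refine ⟨a + 3 * P1 + (2 - a) * 3 ^ (m + (S.rr j).1 + 1), b + 3 * P2 + (2 - b) * 3 ^ (m + (S.rr j).2.1 + 1),
    c + 3 * P3 + (2 - c) * 3 ^ (m + (S.rr j).2.2 + 1), ?_, ?_, ?_, ?_⟩
  · rw [hm2]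
    have := GA.step h1 ha
    convert this using 1
    omega
  · rw [hm2]
    have := GA.step h2 hb
    convert this using 1
    omega
  · rw [hm2]
    have := GA.step h3 hc
    convert this using 1
    omega
  · rw [hm2, hn1]
    unfold tw at hv
    clear h1 h2 h3 hm hm2 hn1
    generalize (S.rr j).1 = r1 at *
    generalize (S.rr j).2.1 = r2 at *
    generalize (S.rr j).2.2 = r3 at *
    generalize 2 - a = ta at *
    generalize 2 - b = tb at *
    generalize 2 - c = tc at *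
    have e1 : ∀ r : ℕ, (3 : ℕ) ^ (m + r + 1) = 3 ^ m * 3 * 3 ^ r := by
      intro r
      rw [← pow_succ, ← pow_add]
      congr 1
      omega
    have e2 : (3 : ℕ) ^ (m + 2) = 3 ^ m * 3 * 3 := by rw [← pow_succ, ← pow_succ]
    have e3 : (3 : ℕ) ^ (m + 1 + S.M) = 3 ^ m * 3 * 3 ^ S.M := by rw [← pow_succ, ← pow_add]
    rw [e1 r1, e1 r2, e1 r3, e2, e3]
    zify at h4 hk hv ⊢
    linear_combination 3 * h4 - hk - (3 ^ m * 3 : ℤ) * hv

/-- the first step: the leading digits must be nonzero -/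
theorem Acc.root {S : Sys} {j l' v' n B x y a b c : ℕ} (hn : S.M ≤ n)
    (h : Acc S j l' v' n B) (ha : a ≤ 1) (hb : b ≤ 1) (hc : c ≤ 1)
    (hk : a + b + c = x + 3 * l')
    (hv : 3 * S.W + tw (S.rr j) a b c = v' + 2 * S.W + y * 3 ^ S.M) :
    Rep (x + 3 * B + y * 3 ^ (n + 1)) := by
  obtain ⟨P1, P2, P3, h1, h2, h3, h4⟩ := h
  set m := n - S.M with hm
  have hn1 : n + 1 = m + 1 + S.M := by omega
  right
  right
  refine ⟨_, _, _, antipal_step h1 ha, antipal_step h2 hb, antipal_step h3 hc, ?_⟩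
  rw [hn1]
  unfold tw at hv
  clear h1 h2 h3 hm hn1
  generalize (S.rr j).1 = r1 at *
  generalize (S.rr j).2.1 = r2 at *
  generalize (S.rr j).2.2 = r3 at *
  generalize 2 - a = ta at *
  generalize 2 - b = tb at *
  generalize 2 - c = tc at *
  have e1 : ∀ r : ℕ, (3 : ℕ) ^ (m + r + 1) = 3 ^ m * 3 * 3 ^ r := by
    intro r
    rw [← pow_succ, ← pow_add]
    congr 1
    omega
  have e3 : (3 : ℕ) ^ (m + 1 + S.M) = 3 ^ m * 3 * 3 ^ S.M := by rw [← pow_succ, ← pow_add]
  rw [e1 r1, e1 r2, e1 r3, e3]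
  zify at h4 hk hv ⊢
  linear_combination (-3) * h4 + hk + (3 ^ m * 3 : ℤ) * hv

/-! ### folds -/

/-- fold of `lor` over the packed list -/
def orF (f : ℕ → ℕ) (len q acc : ℕ) : ℕ :=
  Nat.rec (motive := fun _ => ℕ → ℕ → ℕ) (fun _ acc => acc)
    (fun _ ih q acc => ih (Nat.div q 4096) (Nat.lor acc (f (Nat.mod q 4096)))) len q acc

/-- fold of `land` over the packed list -/
def andF (f : ℕ → ℕ) (len q acc : ℕ) : ℕ :=
  Nat.rec (motive := fun _ => ℕ → ℕ → ℕ) (fun _ acc => acc)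
    (fun _ ih q acc => ih (Nat.div q 4096) (Nat.land acc (f (Nat.mod q 4096)))) len q acc

/-- the packed list -/
def lst : ℕ → ℕ → List ℕ
  | 0, _ => []
  | n + 1, q => q % 4096 :: lst n (q / 4096)

theorem orF_spec (f : ℕ → ℕ) : ∀ (len q acc p : ℕ), (orF f len q acc).testBit p = true →
    acc.testBit p = true ∨ ∃ g ∈ lst len q, (f g).testBit p = true := by
  intro len
  induction len with
  | zero => intro q acc p h; exact Or.inl h
  | succ n ih =>
    intro q acc p h
    have h' : (orF f n (q / 4096) (acc ||| f (q % 4096))).testBit p = true := h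
    rcases ih _ _ _ h' with h1 | ⟨g, hg, h1⟩
    · rw [Nat.testBit_or, Bool.or_eq_true] at h1
      rcases h1 with h1 | h1
      · exact Or.inl h1
      · exact Or.inr ⟨q % 4096, by simp [lst], h1⟩
    · exact Or.inr ⟨g, by simp [lst, hg], h1⟩

theorem andF_spec (f : ℕ → ℕ) : ∀ (len q acc : ℕ), (andF f len q acc).testBit 0 = true →
    acc.testBit 0 = true ∧ ∀ g ∈ lst len q, (f g).testBit 0 = true := by
  intro len
  induction len with
  | zero => intro q acc h; exact ⟨h, by simp [lst]⟩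
  | succ n ih =>
    intro q acc h
    have h' : (andF f n (q / 4096) (acc &&& f (q % 4096))).testBit 0 = true := h
    obtain ⟨h1, h2⟩ := ih _ _ h'
    rw [Nat.testBit_and, Bool.and_eq_true] at h1
    refine ⟨h1.1, ?_⟩
    intro g hg
    rw [lst, List.mem_cons] at hg
    rcases hg with rfl | hg
    · exact h1.2
    · exact h2 g hg

/-- mask of a list of bit positions -/
def orBits (l : List ℕ) : ℕ := l.foldr (fun b acc => Nat.lor acc (Nat.shiftLeft 1 b)) 0

theorem orBits_testBit (l : List ℕ) (p : ℕ) : (orBits l).testBit p = true ↔ p ∈ l := by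
  induction l with
  | nil => simp [orBits]
  | cons a l ih =>
    have e : orBits (a :: l) = orBits l ||| (1 <<< a) := rfl
    rw [e, Nat.testBit_or, Bool.or_eq_true, ih, Nat.one_shiftLeft, Nat.testBit_two_pow,
      decide_eq_true_iff, List.mem_cons]
    constructor
    · rintro (h | h)
      · exact Or.inr h
      · exact Or.inl h.symm
    · rintro (h | h)
      · exact Or.inr h.symm
      · exact Or.inl h

/-! ### constants -/

/-- the digit triples -/
def trip (k : ℕ) : List (ℕ × ℕ × ℕ) :=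
  (List.range k).flatMap fun a => (List.range k).flatMap fun b => (List.range k).map fun c => (a, b, c)

theorem mem_trip {k a b c : ℕ} (h : (a, b, c) ∈ trip k) : a < k ∧ b < k ∧ c < k := by
  unfold trip at h
  simp only [List.mem_flatMap, List.mem_map, List.mem_range, Prod.mk.injEq] at h
  obtain ⟨a', h1, b', h2, c', h3, rfl, rfl, rfl⟩ := h
  exact ⟨h1, h2, h3⟩

/-- lane width -/
def Sys.w (S : Sys) : ℕ := 5 * S.W + 3 * 3 ^ S.M + 1

/-- radix of the state code -/
def Sys.R (S : Sys) : ℕ := S.W + 3 ^ S.M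

/-- digit mask of one type, leading digits `a, b, c < k` -/
def mkD (w k : ℕ) (r : ℕ × ℕ × ℕ) : ℕ :=
  orBits ((trip k).map fun t => w * (t.1 + t.2.1 + t.2.2) + tw r t.1 t.2.1 t.2.2)

theorem mkD_spec {w k : ℕ} {r : ℕ × ℕ × ℕ} {p : ℕ} (h : (mkD w k r).testBit p = true) :
    ∃ a b c, a < k ∧ b < k ∧ c < k ∧ p = w * (a + b + c) + tw r a b c := by
  unfold mkD at h
  rw [orBits_testBit, List.mem_map] at h
  obtain ⟨⟨a, b, c⟩, h1, rfl⟩ := h
  obtain ⟨h2, h3, h4⟩ := mem_trip h1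
  exact ⟨a, b, c, h2, h3, h4, rfl⟩

/-- mask of the sums of three short strings -/
def mkS (m : ℕ) (r : ℕ × ℕ × ℕ) : ℕ :=
  orBits ((gaList (m + r.1)).flatMap fun P1 => (gaList (m + r.2.1)).flatMap fun P2 =>
    (gaList (m + r.2.2)).map fun P3 => P1 + P2 + P3)

theorem mkS_spec {m : ℕ} {r : ℕ × ℕ × ℕ} {p : ℕ} (h : (mkS m r).testBit p = true) :
    ∃ P1 P2 P3, GA (m + r.1) P1 ∧ GA (m + r.2.1) P2 ∧ GA (m + r.2.2) P3 ∧ p = P1 + P2 + P3 := by
  unfold mkS at h
  rw [orBits_testBit] at h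
  simp only [List.mem_flatMap, List.mem_map] at h
  obtain ⟨P1, h1, P2, h2, P3, h3, rfl⟩ := h
  exact ⟨P1, P2, P3, GA_of_mem _ _ h1, GA_of_mem _ _ h2, GA_of_mem _ _ h3, rfl⟩

/-- mask of the blocks `B < 3 ^ mu` with `B + p + mu` even, shifted by `sh` -/
def mkF (mu p sh : ℕ) : ℕ :=
  orBits (((List.range (3 ^ mu)).filter fun B => Nat.beq (Nat.mod (B + p + mu) 2) 0).map fun B => B + sh)

theorem mkF_spec {mu p sh B : ℕ} (hB : B < 3 ^ mu) (hp : (B + p + mu) % 2 = 0) :
    (mkF mu p sh).testBit (B + sh) = true := by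
  unfold mkF
  rw [orBits_testBit, List.mem_map]
  refine ⟨B, ?_, rfl⟩
  rw [List.mem_filter, List.mem_range]
  refine ⟨hB, ?_⟩
  rw [Nat.beq_eq]
  exact hp

/-- literal constants of a system -/
structure Cst where
  R : ℕ
  w : ℕ
  P : ℕ
  W : ℕ
  e : ℕ
  DD : List ℕ
  SP : List ℕ
  F0 : ℕ
  F1 : ℕ

/-- correctness of the constants -/
structure Cst.Ok (c : Cst) (S : Sys) : Prop where
  R : c.R = S.R
  w : c.w = S.w
  P : c.P = 3 ^ S.M
  W : c.W = S.W
  e : c.e = 3 ^ (S.mu - S.M)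
  DD : c.DD = S.ts.map (mkD S.w 3)
  SP : c.SP = S.ts.map (mkS (S.mu - S.M))
  F0 : c.F0 = mkF S.mu 0 (3 ^ (S.mu - S.M) * S.W)
  F1 : c.F1 = mkF S.mu 1 (3 ^ (S.mu - S.M) * S.W)
  hM : S.M ≤ S.mu

end Q251.AP
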