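import Mathlib
import Pool.Agent.Q251.AP.Core

set_option autoImplicit false

/-! Certificates and their soundness. -/

namespace Q251.AP

/-- acceptance for state codes -/
def AccG (S : Sys) (g n B : ℕ) : Prop := Acc S (g / S.R / 3) (g / S.R % 3) (g % S.R) n B

/-- contribution of a state to the image mask -/
def tU (c : Cst) (g : ℕ) : ℕ :=
  Nat.shiftLeft (nth 0 c.DD (Nat.div (Nat.div g c.R) 3))
    (Nat.add (Nat.mul c.w (Nat.add (Nat.mul 9 (Nat.div (Nat.div g c.R) 3)) (Nat.mod (Nat.div g c.R) 3)))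
      (Nat.mul 3 (Nat.mod g c.R)))

/-- contribution of a state to the acceptance mask -/
def tA (c : Cst) (g : ℕ) : ℕ :=
  Nat.shiftLeft (nth 0 c.SP (Nat.div (Nat.div g c.R) 3))
    (Nat.add (Nat.mod (Nat.div g c.R) 3) (Nat.mul c.e (Nat.mod g c.R)))

/-- bit position of a target state -/
def ps (c : Cst) (K g : ℕ) : ℕ :=
  Nat.add K (Nat.add (Nat.mul (Nat.mul 3 c.w) (Nat.div g c.R)) (Nat.mod g c.R))

/-- offset of a letter -/
def off (c : Cst) (x y : ℕ) : ℕ := Nat.add (Nat.add (Nat.mul c.w x) (Nat.mul 2 c.W)) (Nat.mul c.P y)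

def lenC (k : ℕ) : ℕ := Nat.mod (Nat.div k 2) 256
def qC (k : ℕ) : ℕ := Nat.div k 512

/-- the list of states in a packed code -/
def LC (k : ℕ) : List ℕ := lst (lenC k) (qC k)

/-- all states of the code `k` occur in the image mask `U` -/
def elemsIn (c : Cst) (U K k : ℕ) : Bool :=
  Nat.beq (Nat.mod (andF (fun g => Nat.shiftRight U (ps c K g)) (lenC k) (qC k) 1) 2) 1

def imU (c : Cst) (k : ℕ) : ℕ := orF (tU c) (lenC k) (qC k) 0
def imA (c : Cst) (k : ℕ) : ℕ := orF (tA c) (lenC k) (qC k) 0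

def FM (c : Cst) (p : ℕ) : ℕ := bif Nat.beq (Nat.mod p 2) 0 then c.F0 else c.F1

def chkAcc (c : Cst) (A p : ℕ) : Bool := Nat.beq (Nat.land (FM c p) A) (FM c p)

theorem elemsIn_spec {c : Cst} {U K k : ℕ} (h : elemsIn c U K k = true) :
    ∀ g ∈ LC k, U.testBit (ps c K g) = true := by
  unfold elemsIn at h
  rw [Nat.beq_eq] at h
  have h1 : (andF (fun g => Nat.shiftRight U (ps c K g)) (lenC k) (qC k) 1).testBit 0 = true := by
    rw [Nat.testBit_zero, decide_eq_true_iff]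
    exact h
  intro g hg
  have h2 := (andF_spec _ _ _ _ h1).2 g hg
  have h3 : (U >>> (ps c K g)).testBit 0 = true := h2
  rw [Nat.testBit_shiftRight] at h3
  simpa using h3

theorem nth_map_cases {α β : Type} (d : α) (e : β) (f : α → β) :
    ∀ (l : List α) (j : ℕ), nth e (l.map f) j = e ∨
      (nth d l j ∈ l ∧ nth e (l.map f) j = f (nth d l j)) := by
  intro l
  induction l with
  | nil => intro j; left; rfl
  | cons a l ih =>
    intro j
    rcases j with _ | j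
    · right
      exact ⟨by rw [nth_zero]; simp, rfl⟩
    · rcases ih j with h | ⟨h1, h2⟩
      · left
        rw [List.map_cons, nth_succ]
        exact h
      · right
        rw [List.map_cons, nth_succ, nth_succ]
        exact ⟨List.mem_cons_of_mem _ h1, h2⟩

/-- types are admissible -/
def Sys.Good (S : Sys) : Prop := ∀ r ∈ S.ts, 3 ^ r.1 + 3 ^ r.2.1 + 3 ^ r.2.2 ≤ S.W

theorem tw_le {r : ℕ × ℕ × ℕ} {a b c : ℕ} : tw r a b c ≤ 2 * (3 ^ r.1 + 3 ^ r.2.1 + 3 ^ r.2.2) := by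
  unfold tw
  have h1 : (2 - a) * 3 ^ r.1 ≤ 2 * 3 ^ r.1 := Nat.mul_le_mul_right _ (by omega)
  have h2 : (2 - b) * 3 ^ r.2.1 ≤ 2 * 3 ^ r.2.1 := Nat.mul_le_mul_right _ (by omega)
  have h3 : (2 - c) * 3 ^ r.2.2 ≤ 2 * 3 ^ r.2.2 := Nat.mul_le_mul_right _ (by omega)
  omega

theorem euclid {w a r b s : ℕ} (hr : r < w) (hs : s < w) (h : w * a + r = w * b + s) : a = b ∧ r = s := by
  have h1 : (w * a + r) / w = a := by
    rw [Nat.mul_add_div (by omega), Nat.div_eq_of_lt hr, add_zero]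
  have h2 : (w * b + s) / w = b := by
    rw [Nat.mul_add_div (by omega), Nat.div_eq_of_lt hs, add_zero]
  have h3 : a = b := by rw [← h1, ← h2, h]
  subst h3
  exact ⟨rfl, by omega⟩

theorem image_spec {c : Cst} {S : Sys} (hc : c.Ok S) (hS : S.Good) {k x y g' : ℕ}
    (hx : x ≤ 2) (hy : y ≤ 2) (h : (imU c k).testBit (ps c (off c x y) g') = true) :
    ∃ g ∈ LC k, g / S.R / 3 = g' / S.R / 3 ∧ ∃ a b d, a ≤ 2 ∧ b ≤ 2 ∧ d ≤ 2 ∧
      g / S.R % 3 + a + b + d = x + 3 * (g' / S.R % 3) ∧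
      3 * (g % S.R) + tw (S.rr (g' / S.R / 3)) a b d = g' % S.R + 2 * S.W + y * 3 ^ S.M := by
  unfold imU at h
  rcases orF_spec _ _ _ _ _ h with h0 | ⟨g, hg, h1⟩
  · simp at h0
  refine ⟨g, hg, ?_⟩
  have h2 : ((nth 0 c.DD (g / c.R / 3)) <<< (c.w * (9 * (g / c.R / 3) + g / c.R % 3) + 3 * (g % c.R))).testBit
      (c.w * x + 2 * c.W + c.P * y + (3 * c.w * (g' / c.R) + g' % c.R)) = true := h1
  rw [Nat.testBit_shiftLeft, Bool.and_eq_true, decide_eq_true_iff, hc.R, hc.w, hc.W, hc.P, hc.DD] at h2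
  obtain ⟨h3, h4⟩ := h2
  rcases nth_map_cases (0, 0, 0) 0 (mkD S.w 3) S.ts (g / S.R / 3) with h5 | ⟨h5, h6⟩
  · rw [h5] at h4
    simp at h4
  rw [h6] at h4
  obtain ⟨a, b, d, ha, hb, hd, h7⟩ := mkD_spec h4
  have hR : 0 < S.R := by
    unfold Sys.R
    positivity
  have hv : g % S.R < S.R := Nat.mod_lt _ hR
  have hv' : g' % S.R < S.R := Nat.mod_lt _ hR
  have hW := hS _ h5
  have htw := tw_le (r := nth (0, 0, 0) S.ts (g / S.R / 3)) (a := a) (b := b) (c := d)
  set r := nth (0, 0, 0) S.ts (g / S.R / 3) with hr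
  set v := g % S.R with hvdef
  set v' := g' % S.R with hvdef'
  set q := g / S.R with hq
  set q' := g' / S.R with hq'
  have hw : S.w = 5 * S.W + 3 * 3 ^ S.M + 1 := rfl
  have hR2 : S.R = S.W + 3 ^ S.M := rfl
  have hy3 : y * 3 ^ S.M ≤ 2 * 3 ^ S.M := Nat.mul_le_mul_right _ hy
  have hPy : 3 ^ S.M * y = y * 3 ^ S.M := Nat.mul_comm _ _
  have key : S.w * (9 * (q / 3) + q % 3 + (a + b + d)) + (3 * v + tw r a b d) =
      S.w * (x + 3 * q') + (v' + 2 * S.W + y * 3 ^ S.M) := by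
    have e1 : S.w * (x + 3 * q') = S.w * x + 3 * S.w * q' := by ring
    have e2 : S.w * (9 * (q / 3) + q % 3 + (a + b + d)) =
      S.w * (9 * (q / 3) + q % 3) + S.w * (a + b + d) := by ring
    rw [e1, e2]
    omega
  have h8 := euclid (by omega) (by omega) key
  obtain ⟨h9, h10⟩ := h8
  have hj : q / 3 = q' / 3 := by omega
  refine ⟨hj, a, b, d, by omega, by omega, by omega, by omega, ?_⟩
  rw [← hj]
  exact h10

theorem accept_spec {c : Cst} {S : Sys} (hc : c.Ok S) {k B : ℕ}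
    (h : (imA c k).testBit (B + 3 ^ (S.mu - S.M) * S.W) = true) : ∃ g ∈ LC k, AccG S g S.mu B := by
  unfold imA at h
  rcases orF_spec _ _ _ _ _ h with h0 | ⟨g, hg, h1⟩
  · simp at h0
  refine ⟨g, hg, ?_⟩
  have h2 : ((nth 0 c.SP (g / c.R / 3)) <<< (g / c.R % 3 + c.e * (g % c.R))).testBit
      (B + 3 ^ (S.mu - S.M) * S.W) = true := h1
  rw [Nat.testBit_shiftLeft, Bool.and_eq_true, decide_eq_true_iff, hc.R, hc.e, hc.SP] at h2
  obtain ⟨h3, h4⟩ := h2
  rcases nth_map_cases (0, 0, 0) 0 (mkS (S.mu - S.M)) S.ts (g / S.R / 3) with h5 | ⟨h5, h6⟩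
  · rw [h5] at h4
    simp at h4
  rw [h6] at h4
  obtain ⟨P1, P2, P3, g1, g2, g3, h7⟩ := mkS_spec h4
  refine ⟨P1, P2, P3, g1, g2, g3, ?_⟩
  omega

theorem FM_spec {c : Cst} {S : Sys} (hc : c.Ok S) {p B : ℕ} (hB : B < 3 ^ S.mu)
    (hp : (B + p + S.mu) % 2 = 0) : (FM c p).testBit (B + 3 ^ (S.mu - S.M) * S.W) = true := by
  unfold FM
  by_cases h : p % 2 = 0
  · have h1 : Nat.beq (Nat.mod p 2) 0 = true := by
      rw [Nat.beq_eq]
      exact h
    rw [h1, cond_true, hc.F0]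
    exact mkF_spec hB (by omega)
  · have h1 : Nat.beq (Nat.mod p 2) 0 = false := by
      cases h2 : Nat.beq (Nat.mod p 2) 0
      · rfl
      · rw [Nat.beq_eq] at h2
        exact absurd h2 h
    rw [h1, cond_false, hc.F1]
    exact mkF_spec hB (by omega)

theorem chkAcc_spec {c : Cst} {S : Sys} (hc : c.Ok S) {A p B : ℕ} (h : chkAcc c A p = true)
    (hB : B < 3 ^ S.mu) (hp : (B + p + S.mu) % 2 = 0) :
    A.testBit (B + 3 ^ (S.mu - S.M) * S.W) = true := by
  unfold chkAcc at h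
  rw [Nat.beq_eq] at h
  have h1 := FM_spec hc hB hp
  have h2 : (FM c p &&& A) = FM c p := h
  rw [← h2, Nat.testBit_and, Bool.and_eq_true] at h1
  exact h1.2

/-! ### families -/

def chkT (c : Cst) (code : ℕ → ℕ) (nm U p t x y : ℕ) : Bool :=
  and (Nat.blt t nm) (and (Nat.beq (Nat.mod (Nat.add (Nat.add p (code t)) (Nat.add x y)) 2) 0)
    (elemsIn c U (off c x y) (code t)))

def all9 (f : ℕ → ℕ → ℕ → Bool) : Bool :=
  and (f 0 0 0) (and (f 1 0 1) (and (f 2 0 2) (and (f 3 1 0) (and (f 4 1 1) (and (f 5 1 2)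
    (and (f 6 2 0) (and (f 7 2 1) (f 8 2 2))))))))

theorem all9_spec {f : ℕ → ℕ → ℕ → Bool} (h : all9 f = true) {x y : ℕ} (hx : x ≤ 2) (hy : y ≤ 2) :
    f (3 * x + y) x y = true := by
  unfold all9 at h
  simp only [Bool.and_eq_true] at h
  obtain ⟨h0, h1, h2, h3, h4, h5, h6, h7, h8⟩ := h
  interval_cases x <;> interval_cases y <;> assumption

def chkM (c : Cst) (code : ℕ → ℕ) (tg : ℕ → ℕ → ℕ) (nm k : ℕ) : Bool :=
  and (chkAcc c (imA c (code k)) (code k))
    (all9 fun L x y => chkT c code nm (imU c (code k)) (code k) (tg k L) x y)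

def allB (f : ℕ → Bool) (n : ℕ) : Bool := Nat.rec (motive := fun _ => Bool) true (fun k ih => and (f k) ih) n

theorem allB_spec {f : ℕ → Bool} : ∀ {n : ℕ}, allB f n = true → ∀ k < n, f k = true := by
  intro n
  induction n with
  | zero => intro _ k hk; omega
  | succ n ih =>
    intro h k hk
    have h' : (f n && allB f n) = true := h
    rw [Bool.and_eq_true] at h'
    rcases Nat.lt_succ_iff_lt_or_eq.1 hk with h1 | rfl
    · exact ih h'.2 k h1
    · exact h'.1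

/-- splitting off the outer digits -/
theorem split_outer {n B : ℕ} (hB : B < 3 ^ (n + 2)) :
    ∃ x y B', x ≤ 2 ∧ y ≤ 2 ∧ B' < 3 ^ n ∧ B = x + 3 * B' + y * 3 ^ (n + 1) := by
  refine ⟨B % 3, B / 3 ^ (n + 1), B / 3 % 3 ^ n, by omega, ?_, Nat.mod_lt _ (by positivity), ?_⟩
  · have : B / 3 ^ (n + 1) < 3 := by
      apply Nat.div_lt_of_lt_mul
      rw [← pow_succ]
      exact hB
    omega
  · have h1 : B / 3 ^ (n + 1) = B / 3 / 3 ^ n := by
      rw [Nat.div_div_eq_div_mul, pow_succ, Nat.mul_comm]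
    have h2 := Nat.div_add_mod (B / 3) (3 ^ n)
    have h3 := Nat.div_add_mod B 3
    rw [h1, pow_succ]
    set u := B / 3 / 3 ^ n
    set v := B / 3 % 3 ^ n
    have h4 : u * (3 ^ n * 3) = 3 * (3 ^ n * u) := by ring
    omega

theorem parity_split {n x y B' : ℕ} :
    (x + 3 * B' + y * 3 ^ (n + 1)) % 2 = (x + B' + y) % 2 := by
  have h3 : 3 ^ (n + 1) % 2 = 1 := by
    rw [Nat.pow_mod]
    simp
  have h5 : (y * 3 ^ (n + 1)) % 2 = y % 2 := by
    rw [Nat.mul_mod, h3]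
    simp
  omega

theorem fam_sound {c : Cst} {S : Sys} (hc : c.Ok S) (hS : S.Good) {code : ℕ → ℕ} {tg : ℕ → ℕ → ℕ}
    {nm : ℕ} (h : allB (chkM c code tg nm) nm = true) :
    ∀ n, S.mu ≤ n → n % 2 = S.mu % 2 → ∀ k < nm, ∀ B < 3 ^ n, (B + code k + n) % 2 = 0 →
      ∃ g ∈ LC (code k), AccG S g n B := by
  intro n
  induction n using Nat.strong_induction_on with
  | _ n ih =>
    intro hn hn2 k hk B hB hp
    have hk2 := allB_spec h k hk
    unfold chkM at hk2
    rw [Bool.and_eq_true] at hk2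
    obtain ⟨ha, h9⟩ := hk2
    rcases Nat.eq_or_lt_of_le hn with h1 | h1
    · subst h1
      exact accept_spec hc (chkAcc_spec hc ha hB hp)
    · obtain ⟨m, rfl⟩ : ∃ m, n = m + 2 := ⟨n - 2, by omega⟩
      obtain ⟨x, y, B', hx, hy, hB', rfl⟩ := split_outer hB
      have h2 := all9_spec h9 hx hy
      unfold chkT at h2
      simp only [Bool.and_eq_true] at h2
      obtain ⟨h3, h4, h5⟩ := h2
      rw [Nat.beq_eq] at h4
      have h3' : tg k (3 * x + y) < nm := by
        have := Nat.le_of_ble_eq_true h3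
        omega
      have h4' : (code k + code (tg k (3 * x + y)) + (x + y)) % 2 = 0 := h4
      have hps := parity_split (n := m) (x := x) (y := y) (B' := B')
      obtain ⟨g', hg', hacc⟩ := ih m (by omega) (by omega) (by omega) _ h3' B' hB' (by omega)
      have h6 := elemsIn_spec h5 g' hg'
      obtain ⟨g, hg, hj, a, b, d, ha', hb', hd', hk', hv'⟩ := image_spec hc hS hx hy h6
      refine ⟨g, hg, ?_⟩
      unfold AccG at hacc ⊢
      rw [hj]
      exact Acc.step (by have := hc.hM; omega) hacc ha' hb' hd' hk' hv'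

end Q251.AP
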