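import Mathlib
import Pool.Agent.Q251.AP.Basic

set_option autoImplicit false
set_option maxRecDepth 100000

/-! Explicit representations of small and exceptional numbers. -/

namespace Q251.AP

/-- value of the symmetric string of length `n` with outer digits coded by `w` -/
def gv : ℕ → ℕ → ℕ
  | 0, _ => 0
  | 1, _ => 1
  | n + 2, w => w % 3 + 3 * gv n (w / 3) + (2 - w % 3) * 3 ^ (n + 1)

theorem gv_GA : ∀ n w, GA n (gv n w) := by
  intro n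
  induction n using Nat.strong_induction_on with
  | _ n ih =>
    intro w
    rcases n with _ | _ | n
    · exact GA.nil
    · exact GA.one
    · exact GA.step (ih n (by omega) _) (by omega)

/-- the code describes a genuine antipalindromic number -/
def okc (t : ℕ × ℕ) : Bool :=
  match t.1 with
  | 0 => false
  | 1 => true
  | _ + 2 => Nat.blt (t.2 % 3) 2

theorem okc_spec {t : ℕ × ℕ} (h : okc t = true) : Antipal (gv t.1 t.2) := by
  obtain ⟨n, w⟩ := t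
  rcases n with _ | _ | n
  · simp [okc] at h
  · exact antipal_one
  · have h1 : w % 3 < 2 := Nat.le_of_ble_eq_true h
    exact antipal_step (gv_GA n _) (by omega)

/-- check of one witness -/
def wok (p : ℕ × List (ℕ × ℕ)) : Bool :=
  match p.2 with
  | [a] => okc a && Nat.beq (gv a.1 a.2) p.1
  | [a, b] => okc a && okc b && Nat.beq (gv a.1 a.2 + gv b.1 b.2) p.1
  | [a, b, c] => okc a && okc b && okc c && Nat.beq (gv a.1 a.2 + gv b.1 b.2 + gv c.1 c.2) p.1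
  | _ => false

theorem wok_spec {p : ℕ × List (ℕ × ℕ)} (h : wok p = true) : Rep p.1 := by
  obtain ⟨N, l⟩ := p
  rcases l with _ | ⟨a, _ | ⟨b, _ | ⟨c, _ | ⟨d, l⟩⟩⟩⟩
  · simp [wok] at h
  · have h' : (okc a && Nat.beq (gv a.1 a.2) N) = true := h
    simp only [Bool.and_eq_true, Nat.beq_eq] at h'
    obtain ⟨h1, rfl⟩ := h'
    exact Or.inl (okc_spec h1)
  · have h' : (okc a && okc b && Nat.beq (gv a.1 a.2 + gv b.1 b.2) N) = true := h
    simp only [Bool.and_eq_true, Nat.beq_eq] at h'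
    obtain ⟨⟨h1, h2⟩, rfl⟩ := h'
    exact Or.inr (Or.inl ⟨_, _, okc_spec h1, okc_spec h2, rfl⟩)
  · have h' : (okc a && okc b && okc c && Nat.beq (gv a.1 a.2 + gv b.1 b.2 + gv c.1 c.2) N) = true := h
    simp only [Bool.and_eq_true, Nat.beq_eq] at h'
    obtain ⟨⟨⟨h1, h2⟩, h3⟩, rfl⟩ := h'
    exact Or.inr (Or.inr ⟨_, _, _, okc_spec h1, okc_spec h2, okc_spec h3, rfl⟩)
  · simp [wok] at h

def WL : List (ℕ × List (ℕ × ℕ)) := [
  (1, [(1, 0)]),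
  (2, [(1, 0), (1, 0)]),
  (3, [(1, 0), (1, 0), (1, 0)]),
  (4, [(2, 1)]),
  (5, [(1, 0), (2, 1)]),
  (6, [(2, 0)]),
  (7, [(1, 0), (2, 0)]),
  (8, [(2, 1), (2, 1)]),
  (9, [(2, 1), (1, 0), (2, 1)]),
  (10, [(2, 1), (2, 0)]),
  (11, [(2, 0), (1, 0), (2, 1)]),
  (12, [(2, 0), (2, 0)]),
  (13, [(3, 1)]),
  (14, [(1, 0), (3, 1)]),
  (15, [(3, 1), (1, 0), (1, 0)]),
  (16, [(2, 0), (2, 1), (2, 0)]),
  (17, [(2, 1), (3, 1)]),
  (18, [(3, 1), (1, 0), (2, 1)]),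
  (19, [(2, 0), (3, 1)]),
  (20, [(3, 1), (1, 0), (2, 0)]),
  (21, [(3, 0)]),
  (22, [(1, 0), (3, 0)]),
  (23, [(3, 0), (1, 0), (1, 0)]),
  (25, [(2, 1), (3, 0)]),
  (26, [(3, 1), (3, 1)]),
  (27, [(2, 0), (3, 0)]),
  (28, [(3, 0), (1, 0), (2, 0)]),
  (29, [(3, 0), (2, 1), (2, 1)]),
  (30, [(3, 1), (2, 1), (3, 1)]),
  (31, [(3, 0), (2, 1), (2, 0)]),
  (32, [(3, 1), (2, 0), (3, 1)]),
  (33, [(3, 0), (2, 0), (2, 0)]),
  (34, [(4, 7)]),
  (35, [(1, 0), (4, 7)]),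
  (36, [(4, 7), (1, 0), (1, 0)]),
  (38, [(2, 1), (4, 7)]),
  (39, [(4, 7), (1, 0), (2, 1)]),
  (40, [(4, 4)]),
  (41, [(1, 0), (4, 4)]),
  (42, [(3, 0), (3, 0)]),
  (43, [(3, 0), (1, 0), (3, 0)]),
  (44, [(2, 1), (4, 4)]),
  (45, [(4, 4), (1, 0), (2, 1)]),
  (46, [(4, 1)]),
  (47, [(1, 0), (4, 1)]),
  (48, [(4, 1), (1, 0), (1, 0)]),
  (50, [(2, 1), (4, 1)]),
  (51, [(4, 1), (1, 0), (2, 1)]),
  (52, [(2, 0), (4, 1)]),
  (53, [(3, 1), (4, 4)]),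
  (54, [(4, 1), (2, 1), (2, 1)]),
  (55, [(3, 0), (4, 7)]),
  (56, [(4, 1), (2, 1), (2, 0)]),
  (57, [(4, 4), (2, 1), (3, 1)]),
  (58, [(4, 1), (2, 0), (2, 0)]),
  (59, [(3, 1), (4, 1)]),
  (60, [(4, 6)]),
  (61, [(1, 0), (4, 6)]),
  (62, [(4, 6), (1, 0), (1, 0)]),
  (63, [(4, 1), (2, 1), (3, 1)]),
  (64, [(2, 1), (4, 6)]),
  (65, [(4, 6), (1, 0), (2, 1)]),
  (66, [(4, 3)]),
  (67, [(1, 0), (4, 3)]),
  (68, [(4, 7), (4, 7)]),
  (69, [(4, 7), (1, 0), (4, 7)]),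
  (70, [(2, 1), (4, 3)]),
  (71, [(4, 3), (1, 0), (2, 1)]),
  (72, [(4, 0)]),
  (73, [(1, 0), (4, 0)]),
  (74, [(4, 7), (4, 4)]),
  (75, [(4, 4), (1, 0), (4, 7)]),
  (76, [(2, 1), (4, 0)]),
  (77, [(4, 0), (1, 0), (2, 1)]),
  (78, [(2, 0), (4, 0)]),
  (79, [(3, 1), (4, 3)]),
  (80, [(4, 7), (4, 1)]),
  (81, [(3, 0), (4, 6)]),
  (82, [(4, 0), (2, 1), (2, 0)]),
  (83, [(4, 3), (2, 1), (3, 1)]),
  (84, [(4, 0), (2, 0), (2, 0)]),
  (85, [(3, 1), (4, 0)]),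
  (86, [(4, 4), (4, 1)]),
  (87, [(3, 0), (4, 3)]),
  (88, [(4, 3), (1, 0), (3, 0)]),
  (89, [(4, 0), (2, 1), (3, 1)]),
  (90, [(4, 1), (2, 1), (4, 4)]),
  (91, [(4, 0), (2, 0), (3, 1)]),
  (92, [(4, 1), (4, 1)]),
  (93, [(3, 0), (4, 0)]),
  (94, [(4, 7), (4, 6)]),
  (95, [(4, 6), (1, 0), (4, 7)]),
  (96, [(4, 1), (2, 1), (4, 1)]),
  (97, [(5, 7)]),
  (98, [(1, 0), (5, 7)]),
  (99, [(5, 7), (1, 0), (1, 0)]),
  (100, [(4, 7), (4, 3)]),
  (101, [(2, 1), (5, 7)]),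
  (102, [(5, 7), (1, 0), (2, 1)]),
  (103, [(2, 0), (5, 7)]),
  (104, [(5, 7), (1, 0), (2, 0)]),
  (105, [(5, 7), (2, 1), (2, 1)]),
  (106, [(4, 7), (4, 0)]),
  (107, [(5, 7), (2, 1), (2, 0)]),
  (108, [(4, 3), (3, 0), (3, 0)]),
  (109, [(5, 7), (2, 0), (2, 0)]),
  (110, [(3, 1), (5, 7)]),
  (111, [(5, 7), (1, 0), (3, 1)]),
  (112, [(4, 4), (4, 0)]),
  (113, [(4, 0), (1, 0), (4, 4)]),
  (114, [(5, 7), (2, 1), (3, 1)]),
  (115, [(4, 6), (3, 0), (4, 7)]),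
  (116, [(5, 7), (2, 0), (3, 1)]),
  (118, [(3, 0), (5, 7)]),
  (119, [(5, 7), (1, 0), (3, 0)]),
  (120, [(4, 6), (4, 6)]),
  (121, [(5, 4)]),
  (122, [(1, 0), (5, 4)]),
  (123, [(5, 4), (1, 0), (1, 0)]),
  (124, [(5, 7), (2, 0), (3, 0)]),
  (125, [(2, 1), (5, 4)]),
  (126, [(4, 6), (4, 3)]),
  (127, [(2, 0), (5, 4)]),
  (128, [(5, 4), (1, 0), (2, 0)]),
  (129, [(5, 4), (2, 1), (2, 1)]),
  (130, [(4, 3), (2, 1), (4, 6)]),
  (131, [(4, 7), (5, 7)]),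
  (132, [(4, 6), (4, 0)]),
  (133, [(5, 4), (2, 0), (2, 0)]),
  (134, [(3, 1), (5, 4)]),
  (135, [(5, 4), (1, 0), (3, 1)]),
  (136, [(4, 0), (2, 1), (4, 6)]),
  (137, [(4, 4), (5, 7)]),
  (138, [(4, 3), (4, 0)]),
  (139, [(5, 7), (3, 0), (3, 0)]),
  (140, [(5, 4), (2, 0), (3, 1)]),
  (141, [(5, 7), (2, 1), (4, 4)]),
  (142, [(3, 0), (5, 4)]),
  (143, [(4, 1), (5, 7)]),
  (144, [(4, 0), (4, 0)]),
  (145, [(5, 1)]),
  (146, [(1, 0), (5, 1)]),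
  (147, [(5, 1), (1, 0), (1, 0)]),
  (148, [(5, 4), (2, 0), (3, 0)]),
  (149, [(2, 1), (5, 1)]),
  (150, [(5, 1), (1, 0), (2, 1)]),
  (151, [(2, 0), (5, 1)]),
  (152, [(5, 1), (1, 0), (2, 0)]),
  (153, [(5, 1), (2, 1), (2, 1)]),
  (154, [(4, 6), (4, 7), (4, 6)]),
  (155, [(4, 7), (5, 4)]),
  (156, [(5, 4), (1, 0), (4, 7)]),
  (157, [(4, 6), (5, 7)]),
  (158, [(3, 1), (5, 1)]),
  (159, [(5, 1), (1, 0), (3, 1)]),
  (160, [(4, 3), (4, 7), (4, 6)]),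
  (161, [(4, 4), (5, 4)]),
  (162, [(5, 1), (2, 1), (3, 1)]),
  (163, [(4, 3), (5, 7)]),
  (164, [(5, 1), (2, 0), (3, 1)]),
  (165, [(5, 4), (2, 1), (4, 4)]),
  (166, [(3, 0), (5, 1)]),
  (167, [(4, 1), (5, 4)]),
  (168, [(5, 4), (1, 0), (4, 1)]),
  (169, [(4, 0), (5, 7)]),
  (170, [(5, 1), (2, 1), (3, 0)]),
  (171, [(5, 1), (3, 1), (3, 1)]),
  (172, [(5, 1), (2, 0), (3, 0)]),
  (173, [(5, 4), (2, 0), (4, 1)]),
  (174, [(5, 4), (3, 1), (4, 4)]),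
  (175, [(5, 7), (2, 0), (4, 0)]),
  (176, [(5, 4), (3, 0), (4, 7)]),
  (177, [(5, 6)]),
  (178, [(1, 0), (5, 6)]),
  (179, [(4, 7), (5, 1)]),
  (180, [(5, 1), (1, 0), (4, 7)]),
  (181, [(2, 1), (5, 6)]),
  (182, [(5, 6), (1, 0), (2, 1)]),
  (183, [(2, 0), (5, 6)]),
  (184, [(5, 6), (1, 0), (2, 0)]),
  (185, [(4, 4), (5, 1)]),
  (186, [(5, 1), (1, 0), (4, 4)]),
  (187, [(4, 3), (5, 4)]),
  (188, [(5, 4), (1, 0), (4, 3)]),
  (189, [(5, 6), (2, 0), (2, 0)]),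
  (190, [(3, 1), (5, 6)]),
  (191, [(4, 1), (5, 1)]),
  (192, [(5, 1), (1, 0), (4, 1)]),
  (193, [(4, 0), (5, 4)]),
  (194, [(5, 7), (5, 7)]),
  (195, [(5, 1), (2, 1), (4, 1)]),
  (196, [(5, 6), (2, 0), (3, 1)]),
  (197, [(5, 1), (2, 0), (4, 1)]),
  (198, [(3, 0), (5, 6)]),
  (199, [(5, 6), (1, 0), (3, 0)]),
  (200, [(5, 1), (3, 0), (4, 7)]),
  (201, [(5, 3)]),
  (202, [(1, 0), (5, 3)]),
  (203, [(5, 3), (1, 0), (1, 0)]),
  (204, [(5, 6), (2, 0), (3, 0)]),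
  (205, [(2, 1), (5, 3)]),
  (206, [(5, 3), (1, 0), (2, 1)]),
  (207, [(2, 0), (5, 3)]),
  (208, [(5, 3), (1, 0), (2, 0)]),
  (209, [(5, 3), (2, 1), (2, 1)]),
  (210, [(4, 0), (4, 3), (4, 0)]),
  (211, [(4, 7), (5, 6)]),
  (212, [(5, 6), (1, 0), (4, 7)]),
  (213, [(5, 3), (2, 0), (2, 0)]),
  (214, [(3, 1), (5, 3)]),
  (215, [(5, 3), (1, 0), (3, 1)]),
  (216, [(4, 0), (4, 0), (4, 0)]),
  (217, [(4, 4), (5, 6)]),
  (218, [(5, 7), (5, 4)]),
  (219, [(5, 6), (3, 0), (3, 0)]),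
  (220, [(5, 3), (2, 0), (3, 1)]),
  (221, [(5, 6), (2, 1), (4, 4)]),
  (222, [(3, 0), (5, 3)]),
  (223, [(4, 1), (5, 6)]),
  (224, [(5, 6), (1, 0), (4, 1)]),
  (225, [(5, 0)]),
  (226, [(1, 0), (5, 0)]),
  (227, [(5, 0), (1, 0), (1, 0)]),
  (228, [(5, 3), (2, 0), (3, 0)]),
  (229, [(2, 1), (5, 0)]),
  (230, [(5, 0), (1, 0), (2, 1)]),
  (231, [(2, 0), (5, 0)]),
  (232, [(5, 0), (1, 0), (2, 0)]),
  (233, [(5, 0), (2, 1), (2, 1)]),
  (234, [(5, 7), (4, 4), (5, 7)]),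
  (235, [(4, 7), (5, 3)]),
  (236, [(5, 3), (1, 0), (4, 7)]),
  (237, [(4, 6), (5, 6)]),
  (238, [(3, 1), (5, 0)]),
  (239, [(5, 0), (1, 0), (3, 1)]),
  (240, [(5, 7), (4, 1), (5, 7)]),
  (241, [(4, 4), (5, 3)]),
  (242, [(5, 7), (5, 1)]),
  (246, [(3, 0), (5, 0)]),
  (261, [(4, 6), (5, 3)]),
  (285, [(4, 6), (5, 0)]),
  (296, [(6, 16), (2, 1), (2, 0)]),
  (316, [(6, 7), (2, 0), (2, 0)]),
  (322, [(5, 7), (5, 0)]),
  (328, [(4, 6), (6, 25)]),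
  (360, [(6, 22), (1, 0), (3, 1)]),
  (366, [(6, 13), (1, 0), (1, 0)]),
  (372, [(6, 13), (2, 1), (2, 1)]),
  (375, [(5, 6), (3, 0), (5, 6)]),
  (381, [(6, 13), (2, 1), (3, 1)]),
  (387, [(6, 4), (1, 0), (2, 1)]),
  (395, [(3, 1), (6, 4)]),
  (403, [(3, 0), (6, 4)]),
  (409, [(6, 4), (2, 0), (3, 0)]),
  (415, [(5, 0), (3, 1), (5, 6)]),
  (478, [(6, 22), (4, 6), (4, 0)]),
  (481, [(3, 0), (6, 1)]),
  (487, [(5, 3), (6, 16)]),
  (493, [(5, 0), (6, 25)]),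
  (499, [(6, 25), (2, 0), (5, 0)]),
  (657, [(6, 25), (5, 4), (6, 25)]),
  (663, [(6, 4), (3, 1), (6, 25)]),
  (720, [(6, 21), (4, 6), (4, 0)]),
  (723, [(3, 0), (6, 0)]),
  (741, [(6, 24), (2, 0), (5, 0)]),
  (1035, [(7, 22), (1, 0), (3, 1)]),
  (1053, [(7, 25), (2, 1), (6, 25)]),
  (1059, [(7, 22), (2, 1), (4, 7)]),
  (1071, [(7, 22), (2, 1), (4, 1)]),
  (1077, [(6, 6), (3, 0), (6, 24)]),
  (1123, [(7, 7), (3, 0), (5, 6)]),
  (1137, [(7, 13), (2, 1), (4, 4)]),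
  (1143, [(7, 13), (2, 1), (4, 1)]),
  (1149, [(7, 25), (2, 1), (6, 13)]),
  (1220, [(7, 4), (3, 0), (4, 7)]),
  (1319, [(7, 13), (1, 0), (5, 0)]),
  (1474, [(7, 7), (3, 0), (6, 15)]),
  (1480, [(7, 16), (3, 0), (6, 12)]),
  (1561, [(7, 24), (2, 0), (4, 1)]),
  (1567, [(6, 6), (7, 22)]),
  (1645, [(6, 3), (7, 22)]),
  (1723, [(6, 0), (7, 22)]),
  (1729, [(7, 6), (2, 1), (4, 0)]),
  (1807, [(6, 6), (7, 19)]),
  (1956, [(7, 21), (2, 0), (5, 3)]),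
  (1980, [(7, 3), (3, 0), (4, 3)]),
  (2004, [(7, 12), (2, 0), (5, 6)]),
  (2028, [(7, 12), (2, 0), (5, 3)]),
  (2052, [(7, 12), (2, 0), (5, 0)]),
  (2076, [(7, 18), (3, 0), (4, 3)]),
  (2100, [(7, 3), (2, 0), (5, 3)]),
  (2124, [(7, 3), (2, 0), (5, 0)]),
  (2148, [(7, 9), (3, 0), (4, 3)]),
  (2172, [(7, 18), (2, 0), (5, 6)]),
  (2190, [(5, 3), (7, 18)]),
  (2208, [(7, 15), (3, 0), (6, 12)]),
  (2295, [(6, 6), (7, 21)]),
  (2373, [(6, 3), (7, 21)]),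
  (2451, [(6, 0), (7, 21)]),
  (2457, [(8, 52), (4, 4), (5, 7)]),
  (2535, [(6, 6), (7, 18)]),
  (2613, [(6, 3), (7, 18)]),
  (9031, [(9, 79), (7, 0), (5, 6)]),
  (9211, [(8, 24), (8, 51), (5, 1)]),
  (9249, [(9, 52), (8, 79), (4, 1)]),
  (9531, [(9, 79), (7, 1), (7, 1)]),
  (9903, [(9, 76), (7, 16), (5, 1)]),
  (82261, [(10, 105), (10, 213), (7, 25)]),
  (83785, [(10, 18), (10, 130), (7, 18)]),
  (84597, [(11, 241), (10, 61), (6, 1)]),
  (88855, [(11, 43), (9, 54), (5, 0)]),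
  (745987, [(12, 69), (12, 726), (9, 73)]),
  (758629, [(12, 339), (12, 699), (9, 79)]),
  (763543, [(13, 430), (11, 189), (9, 66)]),
  (765181, [(12, 600), (12, 726), (9, 25)]),
  (770095, [(13, 718), (11, 180), (9, 21)]),
  (776719, [(13, 475), (11, 198), (9, 66)]),
  (791395, [(12, 54), (12, 229), (9, 66)]),
  (796309, [(12, 33), (12, 69), (9, 58)]),
  (802465, [(12, 21), (12, 699), (9, 7)]),
  (811069, [(12, 264), (12, 510), (9, 52)]),
  (815983, [(13, 367), (11, 0), (9, 27)]),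
  (817603, [(13, 484), (11, 3), (11, 150)]),
  (824245, [(12, 174), (12, 672), (9, 34)]),
  (829159, [(13, 709), (11, 207), (9, 18)]),
  (6719413, [(14, 555), (14, 2103), (11, 235)]),
  (6776977, [(14, 1257), (14, 2103), (11, 235)]),
  (6778435, [(15, 376), (13, 243), (11, 60)]),
  (6783295, [(14, 1014), (14, 2103), (11, 235)]),
  (6784753, [(14, 285), (14, 2103), (11, 235)]),
  (6901327, [(14, 339), (14, 2130), (11, 88)]),
  (6916069, [(14, 114), (14, 240), (11, 178)]),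
  (6921001, [(14, 276), (14, 2184), (11, 88)]),
  (6935743, [(14, 1869), (14, 2184), (11, 115)]),
  (7113121, [(14, 669), (14, 1455), (11, 88)]),
  (7132735, [(15, 1375), (13, 96), (13, 186)]),
  (7198063, [(14, 345), (14, 1428), (11, 88)]),
  (7335673, [(14, 12), (14, 2184), (11, 223)]),
  (7354141, [(14, 417), (14, 2157), (11, 88)]),
  (7368883, [(15, 1258), (13, 648), (11, 189)]),
  (7432765, [(14, 336), (14, 2130), (11, 88)]),
  (7649431, [(15, 1834), (13, 3), (13, 384)]),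
  (7664173, [(14, 531), (14, 2103), (11, 235)]),
  (54878993, [(16, 1800), (16, 4372), (13, 262)]),
  (60149119, [(17, 6532), (15, 1053), (13, 492)]),
  (60193345, [(16, 5982), (16, 6558), (13, 397)]),
  (60252031, [(17, 6532), (15, 1458), (13, 210)]),
  (60384991, [(17, 6289), (15, 972), (13, 492)]),
  (60429217, [(16, 5901), (16, 6315), (13, 397)]),
  (60448171, [(16, 5172), (16, 6315), (13, 397)]),
  (60484621, [(16, 2148), (16, 6558), (13, 262)]),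
  (60606487, [(17, 3859), (15, 1701), (13, 615)]),
  (60916405, [(16, 123), (16, 5343), (13, 73)]),
  (60960631, [(17, 5479), (15, 0), (13, 546)]),
  (60979585, [(16, 5145), (16, 6315), (13, 397)]),
  (61016035, [(16, 2121), (16, 6558), (13, 262)]),
  (61034989, [(16, 1392), (16, 6558), (13, 262)]),
  (61038391, [(17, 5965), (15, 1215), (13, 60)]),
  (61079215, [(17, 6370), (15, 2106), (13, 222)]),
  (61270861, [(16, 1068), (16, 6558), (13, 262)]),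
  (61315087, [(17, 6505), (15, 1674), (13, 195)]),
  (61370491, [(16, 1959), (16, 2184), (13, 586)]),
  (64976335, [(17, 6523), (15, 1890), (13, 171)]),
  (64990915, [(16, 687), (16, 2184), (13, 610)]),
  (64995289, [(16, 1281), (16, 2103), (13, 97)]),
  (65345011, [(17, 5020), (15, 21), (15, 1158)]),
  (65389237, [(16, 5628), (16, 6558), (13, 331)]),
  (543378109, [(18, 105), (18, 18681), (15, 1360)]),
  (543597295, [(18, 15576), (18, 19653), (15, 712)]),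
  (544142587, [(19, 18682), (17, 4374), (15, 492)]),
  (544660663, [(18, 2877), (18, 19680), (15, 748)]),
  (545547289, [(18, 8952), (18, 19680), (15, 2125)]),
  (545679967, [(18, 4578), (18, 18951), (15, 2125)]),
  (546254905, [(18, 2796), (18, 19680), (15, 748)]),
  (546387583, [(18, 17133), (18, 19680), (15, 991)]),
  (546553795, [(19, 19573), (17, 5346), (15, 1950)]),
  (548690305, [(18, 3951), (18, 13117), (15, 864)]),
  (549267187, [(19, 19087), (17, 3402), (15, 1518)]),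
  (549399865, [(18, 5037), (18, 13119), (15, 748)]),
  (549456727, [(18, 2850), (18, 13119), (15, 748)]),
  (551349859, [(19, 19627), (17, 6534), (15, 681)]),
  (552114337, [(18, 2229), (18, 19275), (15, 2179)]),
  (578496205, [(18, 3342), (18, 19680), (15, 748)]),
  (584874349, [(18, 18183), (18, 18951), (15, 610)]),
  (584884555, [(19, 19645), (17, 1647), (15, 414)]),
  (585007027, [(19, 13084), (17, 4563), (15, 1872)]),
  (585581965, [(18, 17940), (18, 18222), (15, 610)]),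
  (585714643, [(19, 19645), (17, 4887), (15, 576)]),
  (585880855, [(18, 2496), (18, 18141), (15, 97)]),
  (4938843487, [(21, 55780), (19, 15309), (17, 5892)]),
  (4943795827, [(20, 7953), (20, 59046), (17, 2206)]),
  (4944194833, [(20, 53502), (20, 56778), (17, 3637)]),
  (4945918675, [(20, 6252), (20, 39363), (17, 991)]),
  (4946985931, [(20, 7224), (20, 18951), (17, 5122)]),
  (4949645809, [(20, 9168), (20, 19680), (17, 5122)]),
  (4950043843, [(20, 2697), (20, 11526), (17, 4438)]),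
  (4951768657, [(20, 6981), (20, 18951), (17, 5122)]),
  (4952166691, [(20, 11355), (20, 57588), (17, 5851)]),
  (5246716435, [(20, 4719), (20, 18924), (17, 5434)]),
  (5264294731, [(20, 29118), (20, 58317), (17, 2068)]),
  (5269974127, [(21, 59011), (19, 19467), (17, 2034)]),
  (5272267561, [(20, 11136), (20, 19680), (17, 853)]),
  (47384278855, [(22, 59736), (22, 139965), (19, 12274)]),
  (47392258489, [(22, 41268), (22, 115908), (19, 3769)]),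
  (47393452591, [(22, 113439), (22, 172770), (19, 5956)]),
  (47398627033, [(22, 41268), (22, 107160), (19, 3769)]),
  (47399821135, [(22, 60951), (22, 146526), (19, 16891)]),
  (399977567653, [(24, 461256), (24, 529170), (21, 26965)]),
  (400006278589, [(24, 143412), (24, 170502), (21, 8011)])]

theorem WL_ok : WL.all wok = true := by decide +kernel

def inW (N : ℕ) : Bool := WL.any fun p => Nat.beq N p.1

theorem inW_spec {N : ℕ} (h : inW N = true) : Rep N := by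
  unfold inW at h
  rw [List.any_eq_true] at h
  obtain ⟨p, hp, h1⟩ := h
  rw [Nat.beq_eq] at h1
  rw [h1]
  exact wok_spec (List.all_eq_true.1 WL_ok p hp)

/-- the five exceptions -/
def isBad (N : ℕ) : Bool :=
  Nat.beq N 24 || Nat.beq N 37 || Nat.beq N 49 || Nat.beq N 117 || Nat.beq N 421

theorem small_ok : ((List.range 243).all fun N => Nat.beq N 0 || isBad N || inW N) = true := by
  decide +kernel

theorem small_rep {N : ℕ} (h0 : 0 < N) (h : N < 243) (hb : isBad N = false) : Rep N := by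
  have h1 := List.all_eq_true.1 small_ok N (List.mem_range.2 h)
  simp only [Bool.or_eq_true, Nat.beq_eq] at h1
  rcases h1 with (h1 | h1) | h1
  · omega
  · rw [hb] at h1
    exact absurd h1 (by decide)
  · exact inW_spec h1

end Q251.AP
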