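import Mathlib
import Pool.Agent.Q251.AP.DataEE
import Pool.Agent.Q251.AP.DataOE
import Pool.Agent.Q251.AP.DataOO
import Pool.Agent.Q251.AP.DataEO
import Pool.Agent.Q251.AP.Wit

set_option autoImplicit false

/-! Assembly: exactly five positive integers are not sums of at most three antipalindromic numbers. -/

namespace Q251.AP

theorem EE_ok : (EE.E.all fun N => isBad N || inW N) = true := by decide +kernel
theorem OE_ok : (OE.E.all fun N => isBad N || inW N) = true := by decide +kernel
theorem OO_ok : (OO.E.all fun N => isBad N || inW N) = true := by decide +kernel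
theorem EO_ok : (EO.E.all fun N => isBad N || inW N) = true := by decide +kernel

theorem rep_of_list {E : List ℕ} (hE : (E.all fun N => isBad N || inW N) = true) {N : ℕ}
    (h : Rep N ∨ N ∈ E) (hb : isBad N = false) : Rep N := by
  rcases h with h | h
  · exact h
  · have h1 := List.all_eq_true.1 hE N h
    rw [Bool.or_eq_true] at h1
    rcases h1 with h1 | h1
    · rw [hb] at h1
      exact absurd h1 (by decide)
    · exact inW_spec h1

theorem rep_of_not_bad {N : ℕ} (h0 : 0 < N) (hb : isBad N = false) : Rep N := by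
  rcases Nat.lt_or_ge N 243 with h | h
  · exact small_rep h0 h hb
  · have hl : 5 ≤ Nat.log 3 N := by
      apply Nat.le_log_of_pow_le (by norm_num)
      norm_num
      exact h
    obtain ⟨n, hn⟩ : ∃ n, Nat.log 3 N = n + 1 := ⟨Nat.log 3 N - 1, by omega⟩
    have h1 : 3 ^ (n + 1) ≤ N := by
      rw [← hn]
      exact Nat.pow_log_le_self 3 (by omega)
    have h2 : N < 3 ^ (n + 2) := by
      have := Nat.lt_pow_succ_log_self (b := 3) (by norm_num) N
      rw [hn] at this
      exact this
    rcases Nat.mod_two_eq_zero_or_one n with he | ho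
    · rcases Nat.mod_two_eq_zero_or_one N with hN | hN
      · exact rep_of_list EE_ok (EE.main (by omega) he h1 h2 (by omega)) hb
      · exact rep_of_list OE_ok (OE.main (by omega) he h1 h2 (by omega)) hb
    · rcases Nat.mod_two_eq_zero_or_one N with hN | hN
      · exact rep_of_list OO_ok (OO.main (by omega) ho h1 h2 (by omega)) hb
      · exact rep_of_list EO_ok (EO.main (by omega) ho h1 h2 (by omega)) hb

/-! ### the five exceptions -/

/-- all antipalindromic numbers with at most six digits -/
def TL : List ℕ :=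
  (List.range 6).flatMap fun i => (gaList (i + 1)).filter fun P => Nat.ble (3 ^ i) P

theorem mem_TL {m : ℕ} (h : Antipal m) (hm : m < 729) : m ∈ TL := by
  have h1 := mem_of_GA h.GA
  have h0 : m ≠ 0 := by
    have := h.1
    omega
  have hlen := Nat.length_digits 3 m (by norm_num) h0
  rw [hlen] at h1
  have h2 : Nat.log 3 m < 6 := by
    rw [Nat.log_lt_iff_lt_pow (by norm_num) h0]
    norm_num
    exact hm
  unfold TL
  rw [List.mem_flatMap]
  refine ⟨Nat.log 3 m, List.mem_range.2 h2, ?_⟩
  rw [List.mem_filter]
  refine ⟨h1, ?_⟩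
  exact Nat.ble_eq_true_of_le (Nat.pow_log_le_self 3 h0)

theorem TL_ok : (TL.all fun a => !(isBad a) && TL.all fun b => !(isBad (a + b)) &&
    TL.all fun c => !(isBad (a + b + c))) = true := by decide +kernel

theorem bad_lt {N : ℕ} (h : isBad N = true) : N < 729 := by
  unfold isBad at h
  simp only [Bool.or_eq_true, Nat.beq_eq] at h
  omega

theorem not_rep_of_bad {N : ℕ} (h : isBad N = true) : ¬ Rep N := by
  have hlt := bad_lt h
  have hT := List.all_eq_true.1 TL_ok
  rintro (h1 | ⟨a, b, ha, hb, rfl⟩ | ⟨a, b, c, ha, hb, hc, rfl⟩)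
  · have := hT N (mem_TL h1 hlt)
    simp [h] at this
  · have h3 := hT a (mem_TL ha (by omega))
    rw [Bool.and_eq_true] at h3
    have h4 := List.all_eq_true.1 h3.2 b (mem_TL hb (by omega))
    rw [Bool.and_eq_true] at h4
    have := h4.1
    simp [h] at this
  · have h3 := hT a (mem_TL ha (by omega))
    rw [Bool.and_eq_true] at h3
    have h4 := List.all_eq_true.1 h3.2 b (mem_TL hb (by omega))
    rw [Bool.and_eq_true] at h4
    have h5 := List.all_eq_true.1 h4.2 c (mem_TL hc (by omega))
    simp [h] at h5

theorem isBad_iff {N : ℕ} : isBad N = true ↔ N ∈ ({24, 37, 49, 117, 421} : Finset ℕ) := by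
  unfold isBad
  simp only [Bool.or_eq_true, Nat.beq_eq, Finset.mem_insert, Finset.mem_singleton]
  tauto

theorem rep_iff {N : ℕ} (h0 : 0 < N) : Rep N ↔ N ∉ ({24, 37, 49, 117, 421} : Finset ℕ) := by
  rw [← isBad_iff]
  constructor
  · intro h hb
    exact not_rep_of_bad hb h
  · intro h
    exact rep_of_not_bad h0 (by simpa using h)

end Q251.AP
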