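import Mathlib
import Pool.Agent.Q251.AP.Check

set_option autoImplicit false

/-! The finite tree of initial words. -/

namespace Q251.AP

/-- certificate tree -/
inductive CT
  | leaf (k : ℕ)
  | node (q : ℕ) (ex : List ℕ) (c0 c1 c2 c3 c4 c5 c6 c7 c8 : CT)

/-- all blocks in `ex` give exceptional numbers -/
def exOk (mu : ℕ) (exc : ℕ → Bool) (X Y d : ℕ) (ex : List ℕ) : Bool :=
  ex.all fun B => exc (Nat.add X (Nat.add (Nat.mul (Nat.pow 3 d) B) (Nat.mul (Nat.pow 3 (Nat.add d mu)) Y)))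

def pX (X x d : ℕ) : ℕ := Nat.add X (Nat.mul (Nat.pow 3 d) x)

def pY (Y y : ℕ) : ℕ := Nat.add (Nat.mul 3 Y) y

/-- the check of a certificate tree -/
noncomputable def chk (c : Cst) (mu : ℕ) (code : ℕ → ℕ) (nm : ℕ) (exc : ℕ → Bool) (t : CT) :
    ℕ → ℕ → ℕ → ℕ → ℕ → ℕ → Bool :=
  CT.rec (motive := fun _ => ℕ → ℕ → ℕ → ℕ → ℕ → ℕ → Bool)
    (fun k U K p _ _ _ => and (Nat.blt k nm) (and (Nat.beq (Nat.mod (Nat.add (code k) p) 2) 0)
      (elemsIn c U K (code k))))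
    (fun q ex _ _ _ _ _ _ _ _ _ i0 i1 i2 i3 i4 i5 i6 i7 i8 U K p X Y d =>
      and (elemsIn c U K q)
      (and (chkAcc c (Nat.lor (imA c q) (Nat.shiftLeft (orBits ex) (Nat.mul c.e c.W))) p)
      (and (exOk mu exc X Y d ex)
      (and (i0 (imU c q) (off c 0 0) (Nat.add p 0) (pX X 0 d) (pY Y 0) (Nat.succ d))
      (and (i1 (imU c q) (off c 0 1) (Nat.add p 1) (pX X 0 d) (pY Y 1) (Nat.succ d))
      (and (i2 (imU c q) (off c 0 2) (Nat.add p 2) (pX X 0 d) (pY Y 2) (Nat.succ d))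
      (and (i3 (imU c q) (off c 1 0) (Nat.add p 1) (pX X 1 d) (pY Y 0) (Nat.succ d))
      (and (i4 (imU c q) (off c 1 1) (Nat.add p 2) (pX X 1 d) (pY Y 1) (Nat.succ d))
      (and (i5 (imU c q) (off c 1 2) (Nat.add p 3) (pX X 1 d) (pY Y 2) (Nat.succ d))
      (and (i6 (imU c q) (off c 2 0) (Nat.add p 2) (pX X 2 d) (pY Y 0) (Nat.succ d))
      (and (i7 (imU c q) (off c 2 1) (Nat.add p 3) (pX X 2 d) (pY Y 1) (Nat.succ d))
      (i8 (imU c q) (off c 2 2) (Nat.add p 4) (pX X 2 d) (pY Y 2) (Nat.succ d)))))))))))))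
    t

/-- meaning of a checked tree -/
def Sound (c : Cst) (S : Sys) (code : ℕ → ℕ) (nm : ℕ) (exc : ℕ → Bool) (t : CT) : Prop :=
  ∀ U x y p X Y d, x ≤ 2 → y ≤ 2 → chk c S.mu code nm exc t U (off c x y) p X Y d = true →
    ∀ n, S.mu ≤ n → n % 2 = S.mu % 2 → ∀ B < 3 ^ n, (B + p + n) % 2 = 0 →
      (∃ g, U.testBit (ps c (off c x y) g) = true ∧ AccG S g n B) ∨
        exc (X + 3 ^ d * B + 3 ^ (d + n) * Y) = true

theorem node_children {c : Cst} {S : Sys} {code : ℕ → ℕ} {nm : ℕ} {exc : ℕ → Bool}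
    {q : ℕ} {ex : List ℕ} {c0 c1 c2 c3 c4 c5 c6 c7 c8 : CT}
    (h0 : Sound c S code nm exc c0) (h1 : Sound c S code nm exc c1) (h2 : Sound c S code nm exc c2)
    (h3 : Sound c S code nm exc c3) (h4 : Sound c S code nm exc c4) (h5 : Sound c S code nm exc c5)
    (h6 : Sound c S code nm exc c6) (h7 : Sound c S code nm exc c7) (h8 : Sound c S code nm exc c8)
    {U K p X Y d : ℕ}
    (h : chk c S.mu code nm exc (.node q ex c0 c1 c2 c3 c4 c5 c6 c7 c8) U K p X Y d = true) :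
    elemsIn c U K q = true ∧
    chkAcc c (imA c q ||| (orBits ex <<< (c.e * c.W))) p = true ∧
    exOk S.mu exc X Y d ex = true ∧
    ∀ x y, x ≤ 2 → y ≤ 2 → ∃ t, Sound c S code nm exc t ∧
      chk c S.mu code nm exc t (imU c q) (off c x y) (p + (x + y)) (X + 3 ^ d * x) (3 * Y + y) (d + 1) = true := by
  have h' : (elemsIn c U K q &&
      (chkAcc c (imA c q ||| (orBits ex <<< (c.e * c.W))) p &&
      (exOk S.mu exc X Y d ex &&
      (chk c S.mu code nm exc c0 (imU c q) (off c 0 0) (p + (0 + 0)) (X + 3 ^ d * 0) (3 * Y + 0) (d + 1) &&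
      (chk c S.mu code nm exc c1 (imU c q) (off c 0 1) (p + (0 + 1)) (X + 3 ^ d * 0) (3 * Y + 1) (d + 1) &&
      (chk c S.mu code nm exc c2 (imU c q) (off c 0 2) (p + (0 + 2)) (X + 3 ^ d * 0) (3 * Y + 2) (d + 1) &&
      (chk c S.mu code nm exc c3 (imU c q) (off c 1 0) (p + (1 + 0)) (X + 3 ^ d * 1) (3 * Y + 0) (d + 1) &&
      (chk c S.mu code nm exc c4 (imU c q) (off c 1 1) (p + (1 + 1)) (X + 3 ^ d * 1) (3 * Y + 1) (d + 1) &&
      (chk c S.mu code nm exc c5 (imU c q) (off c 1 2) (p + (1 + 2)) (X + 3 ^ d * 1) (3 * Y + 2) (d + 1) &&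
      (chk c S.mu code nm exc c6 (imU c q) (off c 2 0) (p + (2 + 0)) (X + 3 ^ d * 2) (3 * Y + 0) (d + 1) &&
      (chk c S.mu code nm exc c7 (imU c q) (off c 2 1) (p + (2 + 1)) (X + 3 ^ d * 2) (3 * Y + 1) (d + 1) &&
      chk c S.mu code nm exc c8 (imU c q) (off c 2 2) (p + (2 + 2)) (X + 3 ^ d * 2) (3 * Y + 2) (d + 1)))))))))))) = true := h
  simp only [Bool.and_eq_true] at h'
  obtain ⟨e1, e2, e3, g0, g1, g2, g3, g4, g5, g6, g7, g8⟩ := h'
  refine ⟨e1, e2, e3, ?_⟩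
  intro x y hx hy
  interval_cases x <;> interval_cases y
  · exact ⟨c0, h0, g0⟩
  · exact ⟨c1, h1, g1⟩
  · exact ⟨c2, h2, g2⟩
  · exact ⟨c3, h3, g3⟩
  · exact ⟨c4, h4, g4⟩
  · exact ⟨c5, h5, g5⟩
  · exact ⟨c6, h6, g6⟩
  · exact ⟨c7, h7, g7⟩
  · exact ⟨c8, h8, g8⟩

theorem tree_sound {c : Cst} {S : Sys} (hc : c.Ok S) (hS : S.Good) {code : ℕ → ℕ} {tg : ℕ → ℕ → ℕ}
    {nm : ℕ} {exc : ℕ → Bool} (hf : allB (chkM c code tg nm) nm = true) :
    ∀ t, Sound c S code nm exc t := by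
  intro t
  induction t with
  | leaf k =>
    intro U x y p X Y d hx hy h n hn hn2 B hB hp
    have h' : (Nat.blt k nm && (Nat.beq (Nat.mod (Nat.add (code k) p) 2) 0 &&
      elemsIn c U (off c x y) (code k))) = true := h
    simp only [Bool.and_eq_true] at h'
    obtain ⟨h1, h2, h3⟩ := h'
    rw [Nat.beq_eq] at h2
    have h2' : (code k + p) % 2 = 0 := h2
    have h1' : k < nm := by
      have := Nat.le_of_ble_eq_true h1
      omega
    obtain ⟨g, hg, hacc⟩ := fam_sound hc hS hf n hn hn2 k h1' B hB (by omega)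
    exact Or.inl ⟨g, elemsIn_spec h3 g hg, hacc⟩
  | node q ex c0 c1 c2 c3 c4 c5 c6 c7 c8 h0 h1 h2 h3 h4 h5 h6 h7 h8 =>
    intro U x y p X Y d hx hy h n hn hn2 B hB hp
    obtain ⟨e1, e2, e3, e4⟩ := node_children h0 h1 h2 h3 h4 h5 h6 h7 h8 h
    rcases Nat.eq_or_lt_of_le hn with hmu | hmu
    · have h5 := chkAcc_spec hc e2 (B := B) (by rw [hmu]; exact hB) (by rw [hmu]; exact hp)
      rw [Nat.testBit_or, Bool.or_eq_true] at h5
      rcases h5 with h5 | h5
      · obtain ⟨g, hg, hacc⟩ := accept_spec hc h5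
        left
        refine ⟨g, elemsIn_spec e1 g hg, ?_⟩
        rw [← hmu]
        exact hacc
      · right
        rw [Nat.testBit_shiftLeft, Bool.and_eq_true, hc.e, hc.W] at h5
        have h6 := h5.2
        rw [Nat.add_sub_cancel, orBits_testBit] at h6
        unfold exOk at e3
        rw [List.all_eq_true] at e3
        have h7 : exc (X + (3 ^ d * B + 3 ^ (d + S.mu) * Y)) = true := e3 B h6
        rw [← hmu, add_assoc]
        exact h7
    · obtain ⟨m, rfl⟩ : ∃ m, n = m + 2 := ⟨n - 2, by omega⟩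
      obtain ⟨x', y', B', hx', hy', hB', rfl⟩ := split_outer hB
      obtain ⟨t, ht, hchk⟩ := e4 x' y' hx' hy'
      have hps := parity_split (n := m) (x := x') (y := y') (B' := B')
      have h6 := ht (imU c q) x' y' (p + (x' + y')) (X + 3 ^ d * x') (3 * Y + y') (d + 1) hx' hy' hchk
        m (by omega) (by omega) B' hB' (by omega)
      rcases h6 with ⟨g', hg', hacc⟩ | h6
      · left
        obtain ⟨g, hg, hj, a, b, e, ha', hb', hd', hk', hv'⟩ := image_spec hc hS hx' hy' hg'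
        refine ⟨g, elemsIn_spec e1 g hg, ?_⟩
        unfold AccG at hacc ⊢
        rw [hj]
        exact Acc.step (by have := hc.hM; omega) hacc ha' hb' hd' hk' hv'
      · right
        rw [← h6]
        congr 1
        have e5 : (3 : ℕ) ^ (d + (m + 2)) = 3 ^ d * 3 ^ (m + 1) * 3 := by
          rw [← pow_add, ← pow_succ]
          congr 1
        have e6 : (3 : ℕ) ^ (d + 1 + m) = 3 ^ d * 3 ^ (m + 1) := by
          rw [← pow_add]
          congr 1
          omega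
        rw [e5, e6, pow_succ 3 d]
        ring

/-- bits of the image of the initial state, leading digits nonzero -/
def rootBits (S : Sys) : List ℕ :=
  (List.range S.ts.length).flatMap fun j => (trip 2).map fun t =>
    9 * S.w * j + (S.w * (t.1 + t.2.1 + t.2.2) + tw (nth (0, 0, 0) S.ts j) t.1 t.2.1 t.2.2) + 3 * S.W

noncomputable def chkRoot (c : Cst) (mu : ℕ) (code : ℕ → ℕ) (nm : ℕ) (exc : ℕ → Bool) (U p0 : ℕ)
    (t01 t02 t11 t12 t21 t22 : CT) : Bool :=
  and (chk c mu code nm exc t01 U (off c 0 1) (Nat.add p0 1) 0 1 1)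
  (and (chk c mu code nm exc t02 U (off c 0 2) (Nat.add p0 2) 0 2 1)
  (and (chk c mu code nm exc t11 U (off c 1 1) (Nat.add p0 2) 1 1 1)
  (and (chk c mu code nm exc t12 U (off c 1 2) (Nat.add p0 3) 1 2 1)
  (and (chk c mu code nm exc t21 U (off c 2 1) (Nat.add p0 3) 2 1 1)
  (chk c mu code nm exc t22 U (off c 2 2) (Nat.add p0 4) 2 2 1)))))

theorem nth_mem {α : Type} (d : α) : ∀ (l : List α) (j : ℕ), j < l.length → nth d l j ∈ l := by
  intro l
  induction l with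
  | nil => intro j hj; simp at hj
  | cons a l ih =>
    intro j hj
    rcases j with _ | j
    · rw [nth_zero]
      simp
    · rw [nth_succ]
      exact List.mem_cons_of_mem _ (ih j (by simpa using hj))

theorem root_image {c : Cst} {S : Sys} (hc : c.Ok S) (hS : S.Good) {U x y g' : ℕ}
    (hU : U = orBits (rootBits S)) (hx : x ≤ 2) (hy : y ≤ 2)
    (h : U.testBit (ps c (off c x y) g') = true) :
    ∃ a b d, a ≤ 1 ∧ b ≤ 1 ∧ d ≤ 1 ∧ a + b + d = x + 3 * (g' / S.R % 3) ∧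
      3 * S.W + tw (S.rr (g' / S.R / 3)) a b d = g' % S.R + 2 * S.W + y * 3 ^ S.M := by
  rw [hU, orBits_testBit] at h
  unfold rootBits at h
  simp only [List.mem_flatMap, List.mem_range, List.mem_map] at h
  obtain ⟨j, hj, ⟨a, b, d⟩, ht, h1⟩ := h
  obtain ⟨ha, hb, hd⟩ := mem_trip ht
  have h2 : 9 * S.w * j + (S.w * (a + b + d) + tw (nth (0, 0, 0) S.ts j) a b d) + 3 * S.W =
      c.w * x + 2 * c.W + c.P * y + (3 * c.w * (g' / c.R) + g' % c.R) := h1
  rw [hc.R, hc.w, hc.W, hc.P] at h2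
  have hR : 0 < S.R := by
    unfold Sys.R
    positivity
  have hv' : g' % S.R < S.R := Nat.mod_lt _ hR
  have hW := hS _ (nth_mem (0, 0, 0) S.ts j hj)
  have htw := tw_le (r := nth (0, 0, 0) S.ts j) (a := a) (b := b) (c := d)
  set r := nth (0, 0, 0) S.ts j with hr
  set v' := g' % S.R with hvdef'
  set q' := g' / S.R with hq'
  have hw : S.w = 5 * S.W + 3 * 3 ^ S.M + 1 := rfl
  have hR2 : S.R = S.W + 3 ^ S.M := rfl
  have hy3 : y * 3 ^ S.M ≤ 2 * 3 ^ S.M := Nat.mul_le_mul_right _ hy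
  have hPy : 3 ^ S.M * y = y * 3 ^ S.M := Nat.mul_comm _ _
  have key : S.w * (9 * j + (a + b + d)) + (3 * S.W + tw r a b d) =
      S.w * (x + 3 * q') + (v' + 2 * S.W + y * 3 ^ S.M) := by
    have e1 : S.w * (x + 3 * q') = S.w * x + 3 * S.w * q' := by ring
    have e2 : S.w * (9 * j + (a + b + d)) = 9 * S.w * j + S.w * (a + b + d) := by ring
    rw [e1, e2]
    omega
  obtain ⟨h9, h10⟩ := euclid (by omega) (by omega) key
  have hj2 : j = q' / 3 := by omega
  refine ⟨a, b, d, by omega, by omega, by omega, by omega, ?_⟩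
  unfold Sys.rr
  rw [← hj2]
  exact h10

theorem root_sound {c : Cst} {S : Sys} (hc : c.Ok S) (hS : S.Good) {code : ℕ → ℕ} {tg : ℕ → ℕ → ℕ}
    {nm : ℕ} {exc : ℕ → Bool} (hf : allB (chkM c code tg nm) nm = true) {U p0 : ℕ}
    (hU : U = orBits (rootBits S)) {t01 t02 t11 t12 t21 t22 : CT}
    (h : chkRoot c S.mu code nm exc U p0 t01 t02 t11 t12 t21 t22 = true) {n N : ℕ}
    (hn : S.mu ≤ n) (hn2 : n % 2 = S.mu % 2) (h1 : 3 ^ (n + 1) ≤ N) (h2 : N < 3 ^ (n + 2))
    (hp : (N + p0 + n) % 2 = 0) : Rep N ∨ exc N = true := by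
  unfold chkRoot at h
  simp only [Bool.and_eq_true] at h
  obtain ⟨g01, g02, g11, g12, g21, g22⟩ := h
  obtain ⟨x, y, B, hx, hy, hB, rfl⟩ := split_outer h2
  have hps := parity_split (n := n) (x := x) (y := y) (B' := B)
  have hy1 : y = 1 ∨ y = 2 := by
    rcases Nat.eq_zero_or_pos y with h0 | h0
    · exfalso
      subst h0
      rw [pow_succ] at h1
      omega
    · omega
  have key : ∃ t, chk c S.mu code nm exc t U (off c x y) (p0 + (x + y)) x y 1 = true := by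
    rcases hy1 with rfl | rfl
    · interval_cases x
      · exact ⟨t01, g01⟩
      · exact ⟨t11, g11⟩
      · exact ⟨t21, g21⟩
    · interval_cases x
      · exact ⟨t02, g02⟩
      · exact ⟨t12, g12⟩
      · exact ⟨t22, g22⟩
  obtain ⟨t, ht⟩ := key
  have h3 := tree_sound hc hS (exc := exc) hf t U x y _ _ _ _ hx hy ht n hn hn2 B hB (by omega)
  rcases h3 with ⟨g', hg', hacc⟩ | h3
  · left
    obtain ⟨a, b, d, ha, hb, hd, hk, hv⟩ := root_image hc hS hU hx hy hg'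
    exact Acc.root (by have := hc.hM; omega) hacc ha hb hd hk hv
  · right
    rw [← h3]
    congr 1
    rw [pow_one, show 1 + n = n + 1 by omega]
    ring

end Q251.AP
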